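import Mathlib
import Pool.Agent.LqAll.Core

set_option autoImplicit false

/-!
For EVERY exponent `2 < q < ∞` the space `L_q[0,1]` has neither a coarse nor a uniform embedding
into `ℓ_q`.
-/

namespace Pool.Agent.Results.MP_efb015_an.AllExponents

open MeasureTheory

/-- For every `p` with `2 < p < ∞`: there is no coarse embedding of real `L_p[0,1]` into real
`ℓ_p`, and there is no uniform embedding of `L_p[0,1]` into `ℓ_p`. -/
theorem result :
    ∀ (p : ENNReal) [Fact (1 ≤ p)], (2 : ENNReal) < p → p ≠ ⊤ →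
      (¬ ∃ f : Lp ℝ p ((volume : Measure ℝ).restrict (Set.Icc 0 1)) → lp (fun _ : ℕ => ℝ) p,
          ∃ ρ₁ ρ₂ : ℝ → ℝ, MonotoneOn ρ₁ (Set.Ici 0) ∧ MonotoneOn ρ₂ (Set.Ici 0) ∧
            Filter.Tendsto ρ₁ Filter.atTop Filter.atTop ∧
            ∀ x y, ρ₁ (dist x y) ≤ dist (f x) (f y) ∧ dist (f x) (f y) ≤ ρ₂ (dist x y)) ∧
      (¬ ∃ f : Lp ℝ p ((volume : Measure ℝ).restrict (Set.Icc 0 1)) → lp (fun _ : ℕ => ℝ) p,
          IsUniformEmbedding f) := by
  intro p _ hp2 hpt
  have hr : 2 < p.toReal := by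
    have h := (ENNReal.toReal_lt_toReal (by norm_num) hpt).2 hp2
    simpa using h
  set D : ℝ := 2 * Pool.Agent.LqAll.Bd p.toReal with hD
  have hDpos : 0 < D := by
    have := Pool.Agent.LqAll.Bd_pos p.toReal
    rw [hD]; linarith
  constructor
  · -- no coarse embedding
    rintro ⟨f, ρ₁, ρ₂, -, hρ₂, hlim, hf⟩
    set C : ℝ := max (ρ₂ D) 1 with hC
    have hCpos : 0 < C := lt_of_lt_of_le one_pos (le_max_right _ _)
    have hfC : ∀ x y, ‖x - y‖ ≤ D → ‖f x - f y‖ ≤ C := by
      intro x y hxy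
      rw [← dist_eq_norm] at hxy ⊢
      refine (hf x y).2.trans (le_trans ?_ (le_max_left _ _))
      exact hρ₂ (Set.mem_Ici.2 dist_nonneg) (Set.mem_Ici.2 hDpos.le) hxy
    obtain ⟨R₀, hR₀⟩ := Filter.eventually_atTop.1 (hlim.eventually_gt_atTop (3 * C))
    obtain ⟨x, y, h1, h2⟩ := Pool.Agent.LqAll.core' hr f C hCpos hfC (max R₀ 1)
      (lt_of_lt_of_le one_pos (le_max_right _ _))
    rw [← dist_eq_norm] at h1 h2
    have h3 := hR₀ (dist x y) ((le_max_left _ _).trans h1)
    have h5 := (hf x y).1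
    linarith
  · -- no uniform embedding
    rintro ⟨f, hf⟩
    obtain ⟨δ, hδ, hδ'⟩ : ∃ δ > 0, ∀ x y, dist (f x) (f y) < δ → dist x y < 1 := by
      have h1 := (Metric.isUniformInducing_iff.1 hf.isUniformInducing).2 1 one_pos
      obtain ⟨δ, hδ, h2⟩ := h1
      exact ⟨δ, hδ, fun x y h => h2 h⟩
    set C : ℝ := δ / 10 with hC
    have hCpos : 0 < C := by positivity
    obtain ⟨t₀, ht₀, ht⟩ := Metric.uniformContinuous_iff.1 hf.uniformContinuous C hCpos
    set t : ℝ := t₀ / (2 * D) with htdef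
    have htpos : 0 < t := by positivity
    have hg : ∀ x y, ‖x - y‖ ≤ D → ‖f (t • x) - f (t • y)‖ ≤ C := by
      intro x y hxy
      rw [← dist_eq_norm]
      refine (ht ?_).le
      rw [dist_eq_norm, ← smul_sub, norm_smul, Real.norm_eq_abs, abs_of_pos htpos]
      have h2 : t * ‖x - y‖ ≤ t * D := mul_le_mul_of_nonneg_left hxy htpos.le
      have h3 : t * D = t₀ / 2 := by rw [htdef]; field_simp
      linarith
    obtain ⟨x, y, h1, h2⟩ := Pool.Agent.LqAll.core' hr (fun x => f (t • x)) C hCpos hg (1 / t)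
      (by positivity)
    have h3 : dist (t • x) (t • y) < 1 := by
      apply hδ'
      rw [dist_eq_norm]
      refine lt_of_le_of_lt h2 ?_
      rw [hC]
      linarith
    rw [dist_eq_norm, ← smul_sub, norm_smul, Real.norm_eq_abs, abs_of_pos htpos] at h3
    have h6 : 1 ≤ t * ‖x - y‖ := by
      have := mul_le_mul_of_nonneg_left h1 htpos.le
      rwa [mul_one_div_cancel htpos.ne'] at this
    linarith

end Pool.Agent.Results.MP_efb015_an.AllExponents
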